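import Pool.Agent.Helper24K9.PT.Stm2
import Pool.Agent.Helper88K9.PT.Quad

/-!
# [NL1] and [DS1]: linear directions, fixed leading coefficient
-/

set_option autoImplicit false

namespace Pool.Agent.Helper30K9.PT

open Finset Filter Topology
open Pool.Agent.Helper24K9.PT
open Pool.Agent.Helper24K9.EL (DS)
open Pool.Agent.Helper24K9.PL (cA cB cC mem)
open Pool.Agent.Helper82K9.PR (sg LP Bx)

lemma nn_lin (g u : Fin 3 → ℤ) (hg : g 2 = 0) :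
    nn g u = 16 * u 2 * (g 1 ^ 2 * u 0 - g 0 * g 1 * u 1 + g 0 ^ 2 * u 2) := by
  unfold nn cV dsc
  rw [hg]
  ring

lemma sg_sq (z m : ℕ) : sg z (m ^ 2) = sg z m := by
  unfold sg LP
  rw [Nat.primeFactors_pow m two_ne_zero]

theorem nl1 : S_NL1 := by
  classical
  intro g g' a₀ hg hg' hg1 hcC ha C ε hε
  set β : ℤ := 16 * a₀ * (g 1 * cC g g') with hβd
  have hβ : β ≠ 0 := mul_ne_zero (mul_ne_zero (by norm_num) ha) (mul_ne_zero hg1 hcC)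
  set M : ℝ := C + |(g' 0 : ℝ)| + |(g' 1 : ℝ)| + |(g' 2 : ℝ)| with hM
  set K' : ℝ := 16 * |(a₀ : ℝ)| * (|(g 1 : ℝ)| ^ 2 + |(g 0 : ℝ)| * |(g 1 : ℝ)| + |(g 0 : ℝ)| ^ 2) * M with hK'
  obtain ⟨z0, hz0⟩ := Pool.Agent.Helper88K9.PT.quad_most (β ^ 2) (pow_ne_zero 2 hβ) (K' ^ 2) ε hε
  refine ⟨z0, fun z hz => ?_⟩
  obtain ⟨H0, hH0⟩ := hz0 z hz
  refine ⟨H0, fun H hH h hQ hh => ?_⟩
  set α : ℤ := 16 * a₀ * (g 1 ^ 2 * h 0 - g 0 * g 1 * h 1 + g 0 ^ 2 * a₀) with hα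
  have h2 : h 2 = a₀ := hQ
  have hu2 : ∀ l : ℤ, h 2 + l * g' 2 = a₀ := fun l => by rw [hg', mul_zero, add_zero, h2]
  have hnn : ∀ l : ℤ, nn g (fun i => h i + l * g' i) = α + β * l := by
    intro l
    rw [nn_lin g _ hg]
    simp only [hu2]
    rw [hα, hβd]
    unfold cC
    ring
  refine hH0 H hH (2 * α * β) (α ^ 2) (fun l => nn g (fun i => h i + l * g' i) ^ 2) ?_ ?_ _ ?_
  · intro l
    simp only [hnn]
    ring
  · intro l hl
    rw [mem_Icc] at hl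
    have hlH : |(l : ℝ)| ≤ H := by
      rw [abs_le]
      constructor
      · exact_mod_cast hl.1
      · exact_mod_cast hl.2
    have hH0' : (0 : ℝ) ≤ H := Nat.cast_nonneg H
    have hg'i : ∀ i : Fin 3, |(g' i : ℝ)| ≤ |(g' 0 : ℝ)| + |(g' 1 : ℝ)| + |(g' 2 : ℝ)| := by
      intro i
      have a0 := abs_nonneg (g' 0 : ℝ)
      have a1 := abs_nonneg (g' 1 : ℝ)
      have a2 := abs_nonneg (g' 2 : ℝ)
      fin_cases i
      · show |(g' 0 : ℝ)| ≤ _; linarith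
      · show |(g' 1 : ℝ)| ≤ _; linarith
      · show |(g' 2 : ℝ)| ≤ _; linarith
    have hu : ∀ i : Fin 3, |((h i + l * g' i : ℤ) : ℝ)| ≤ M * H := by
      intro i
      push_cast
      calc |(h i : ℝ) + l * g' i| ≤ |(h i : ℝ)| + |(l : ℝ) * g' i| := abs_add_le _ _
        _ = |(h i : ℝ)| + |(l : ℝ)| * |(g' i : ℝ)| := by rw [abs_mul]
        _ ≤ C * H + H * (|(g' 0 : ℝ)| + |(g' 1 : ℝ)| + |(g' 2 : ℝ)|) :=
            add_le_add (hh i) (mul_le_mul hlH (hg'i i) (abs_nonneg _) hH0')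
        _ = M * H := by rw [hM]; ring
    have hb : |((nn g (fun i => h i + l * g' i) : ℤ) : ℝ)| ≤ K' * H := by
      rw [nn_lin g _ hg]
      simp only [hu2]
      have e0 := hu 0
      have e1 := hu 1
      have e2 := hu 2
      rw [hu2] at e2
      push_cast at e0 e1 e2 ⊢
      set x : ℝ := (h 0 : ℝ) + l * g' 0 with hx
      set y : ℝ := (h 1 : ℝ) + l * g' 1 with hy
      have hMH : 0 ≤ M * H := (abs_nonneg _).trans e0
      rw [abs_mul, abs_mul]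
      have e16 : |(16 : ℝ)| = 16 := by norm_num
      rw [e16]
      have h3 : |(g 1 : ℝ) ^ 2 * x - g 0 * g 1 * y + (g 0 : ℝ) ^ 2 * a₀| ≤
          (|(g 1 : ℝ)| ^ 2 + |(g 0 : ℝ)| * |(g 1 : ℝ)| + |(g 0 : ℝ)| ^ 2) * (M * H) := by
        calc |(g 1 : ℝ) ^ 2 * x - g 0 * g 1 * y + (g 0 : ℝ) ^ 2 * a₀|
            ≤ |(g 1 : ℝ) ^ 2 * x - g 0 * g 1 * y| + |(g 0 : ℝ) ^ 2 * a₀| := abs_add_le _ _
          _ ≤ |(g 1 : ℝ) ^ 2 * x| + |(g 0 : ℝ) * g 1 * y| + |(g 0 : ℝ) ^ 2 * a₀| := by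
              have := abs_sub (( g 1 : ℝ) ^ 2 * x) ((g 0 : ℝ) * g 1 * y)
              linarith
          _ = |(g 1 : ℝ)| ^ 2 * |x| + |(g 0 : ℝ)| * |(g 1 : ℝ)| * |y| + |(g 0 : ℝ)| ^ 2 * |(a₀ : ℝ)| := by
              rw [abs_mul, abs_mul, abs_mul, abs_mul, abs_pow, abs_pow]
          _ ≤ |(g 1 : ℝ)| ^ 2 * (M * H) + |(g 0 : ℝ)| * |(g 1 : ℝ)| * (M * H) + |(g 0 : ℝ)| ^ 2 * (M * H) := by
              gcongr
          _ = _ := by ring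
      calc 16 * |(a₀ : ℝ)| * |(g 1 : ℝ) ^ 2 * x - g 0 * g 1 * y + (g 0 : ℝ) ^ 2 * a₀|
          ≤ 16 * |(a₀ : ℝ)| * ((|(g 1 : ℝ)| ^ 2 + |(g 0 : ℝ)| * |(g 1 : ℝ)| + |(g 0 : ℝ)| ^ 2) * (M * H)) :=
            mul_le_mul_of_nonneg_left h3 (by positivity)
        _ = K' * H := by rw [hK']; ring
    have e : (((nn g (fun i => h i + l * g' i) ^ 2).natAbs : ℕ) : ℝ) =
        |((nn g (fun i => h i + l * g' i) : ℤ) : ℝ)| ^ 2 := by
      rw [Nat.cast_natAbs]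
      push_cast
      rw [abs_pow]
    rw [e]
    calc |((nn g (fun i => h i + l * g' i) : ℤ) : ℝ)| ^ 2 ≤ (K' * H) ^ 2 := pow_le_pow_left₀ (abs_nonneg _) hb 2
      _ = K' ^ 2 * (H : ℝ) ^ 2 := by ring
  · intro l hl
    rw [mem_filter] at hl
    refine ⟨hl.1, ?_⟩
    rcases hl.2 with h0 | h0
    · left
      show nn g (fun i => h i + l * g' i) ^ 2 = 0
      rw [h0]
      norm_num
    · right
      show ε < sg z (nn g (fun i => h i + l * g' i) ^ 2).natAbs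
      rw [Int.natAbs_pow, sg_sq]
      exact h0

/-- [DS1] -/
theorem ds1 (g g' : Fin 3 → ℤ) (a₀ : ℤ) (hg : g 2 = 0) (hg' : g' 2 = 0) (ha : a₀ ≠ 0) :
    S_DSc g g' (fun h => h 2 = a₀) := by
  classical
  intro C ε hε
  refine ⟨a₀.natAbs, fun z hz => ⟨0, fun H _ h hQ _ => ?_⟩⟩
  have h2 : h 2 = a₀ := hQ
  have hm : ∀ v : Fin (1 + 1) → ℤ, mem g g' h v 2 = a₀ := by
    intro v
    show h 2 + v 0 * g 2 + v 1 * g' 2 = a₀
    rw [hg, hg', h2]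
    ring
  have hDS : ∀ N : ℕ, DS a₀ z N = 0 := by
    intro N
    unfold DS
    rw [filter_false_of_mem, sum_empty]
    rintro p hp ⟨-, h4⟩
    rw [mem_Ioc] at hp
    have h5 : p ∣ a₀.natAbs := Int.natCast_dvd.1 h4
    have h6 := Nat.le_of_dvd (Int.natAbs_pos.2 ha) h5
    omega
  have he : ({v ∈ Bx 1 H | ¬ (mem g g' h v 2 ≠ 0 ∧ ∀ N : ℕ, DS (mem g g' h v 2) z N ≤ ε)} : Finset _) = ∅ := by
    rw [filter_eq_empty_iff]
    intro v _ hn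
    refine hn ⟨by rw [hm]; exact ha, fun N => ?_⟩
    rw [hm, hDS]
    exact hε.le
  rw [he, card_empty]
  push_cast
  positivity

end Pool.Agent.Helper30K9.PT
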