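import Pool.Agent.Helper24K9.EL.Ta

set_option autoImplicit false

/-! The twisted second moment of `jacobiSym (U k² + V k + W) p / p`. -/

namespace Pool.Agent.Helper30K9.PT
open Finset Filter Topology
open Pool.Agent.W468.ConjF
open Pool.Agent.W218.HF (quad_sum periodic_sum' pell_count)
open Pool.Agent.H307R2.OP (J PB)
open Pool.Agent.Helper24K9.EL (sg sg_abs QD comp_pair)

theorem second_momentT (U V W : ℤ) (P : Finset ℕ) (z Z H : ℕ) (hz : 1 ≤ z)
    (hP : ∀ p ∈ P, p.Prime ∧ p ≠ 2 ∧ z < p ∧ p ≤ Z ∧ ¬ (p : ℤ) ∣ V ^ 2 - 4 * U * W) (c : ℕ → ℝ)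
    (hc : ∀ p, |c p| ≤ 1) :
    ∑ k ∈ range H, (∑ p ∈ P, c p * ((jacobiSym (QD U V W (k : ℤ)) p : ℝ) / p)) ^ 2 ≤ 2 * (H / z) + (Z : ℝ) ^ 2 := by
  classical
  have h1 : ∑ k ∈ range H, (∑ p ∈ P, c p * ((jacobiSym (QD U V W (k : ℤ)) p : ℝ) / p)) ^ 2 =
      ∑ p ∈ P, ∑ q ∈ P, (c p * c q) * ((∑ k ∈ range H, (jacobiSym (QD U V W (k : ℤ)) p : ℝ) * (jacobiSym (QD U V W (k : ℤ)) q : ℝ)) / (p * q)) := by
    simp_rw [sq (∑ p ∈ P, _), sum_mul_sum]
    rw [sum_comm]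
    apply sum_congr rfl
    intro p _
    rw [sum_comm]
    apply sum_congr rfl
    intro q _
    rw [sum_div, mul_sum]
    apply sum_congr rfl
    intro k _
    rw [← div_mul_div_comm]
    ring
  rw [h1]
  have hcc : ∀ p q, |c p * c q| ≤ 1 := by
    intro p q
    rw [abs_mul]
    exact mul_le_one₀ (hc p) (abs_nonneg _) (hc q)
  have h2 : ∀ p ∈ P, ∀ q ∈ P, (c p * c q) * ((∑ k ∈ range H, (jacobiSym (QD U V W (k : ℤ)) p : ℝ) * (jacobiSym (QD U V W (k : ℤ)) q : ℝ)) / (p * q)) ≤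
      (if p = q then (H : ℝ) * (1 / (p : ℝ) ^ 2) else 0) + ((H : ℝ) * ((1 / (p : ℝ) ^ 2) * (1 / (q : ℝ) ^ 2)) + 1) := by
    intro p hp q hq
    obtain ⟨hpp, hp2, hzp, hpZ, hpβ⟩ := hP p hp
    obtain ⟨hqp, hq2, hzq, hqZ, hqβ⟩ := hP q hq
    have hp0 : (0 : ℝ) < p := by exact_mod_cast hpp.pos
    have hq0 : (0 : ℝ) < q := by exact_mod_cast hqp.pos
    -- reduce to a bound of the absolute value
    suffices hab : |(∑ k ∈ range H, (jacobiSym (QD U V W (k : ℤ)) p : ℝ) * (jacobiSym (QD U V W (k : ℤ)) q : ℝ)) / (p * q)| ≤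
        (if p = q then (H : ℝ) * (1 / (p : ℝ) ^ 2) else 0) + ((H : ℝ) * ((1 / (p : ℝ) ^ 2) * (1 / (q : ℝ) ^ 2)) + 1) by
      refine (le_abs_self _).trans ?_
      rw [abs_mul]
      refine le_trans ?_ hab
      exact mul_le_of_le_one_left (abs_nonneg _) (hcc p q)
    rw [abs_div, abs_of_pos (show (0 : ℝ) < p * q by positivity)]
    by_cases hpq : p = q
    · subst hpq
      rw [if_pos rfl]
      have h3 : |∑ c ∈ range H, (jacobiSym (QD U V W (c : ℤ)) p : ℝ) * (jacobiSym (QD U V W (c : ℤ)) p : ℝ)| ≤ H := by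
        calc |∑ c ∈ range H, (jacobiSym (QD U V W (c : ℤ)) p : ℝ) * (jacobiSym (QD U V W (c : ℤ)) p : ℝ)|
            ≤ ∑ c ∈ range H, |(jacobiSym (QD U V W (c : ℤ)) p : ℝ) * (jacobiSym (QD U V W (c : ℤ)) p : ℝ)| :=
              abs_sum_le_sum_abs _ _
          _ ≤ ∑ c ∈ range H, (1 : ℝ) := by
              apply sum_le_sum
              intro c _
              rw [abs_mul]
              exact mul_le_one₀ (js_abs _ _) (abs_nonneg _) (js_abs _ _)
          _ = H := by simp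
      have h4 : |∑ c ∈ range H, (jacobiSym (QD U V W (c : ℤ)) p : ℝ) * (jacobiSym (QD U V W (c : ℤ)) p : ℝ)| / (p * p) ≤
          (H : ℝ) * (1 / (p : ℝ) ^ 2) := by
        rw [mul_one_div, sq]
        exact div_le_div_of_nonneg_right h3 (by positivity)
      have h5 : 0 ≤ (H : ℝ) * ((1 / (p : ℝ) ^ 2) * (1 / (p : ℝ) ^ 2)) := by positivity
      linarith
    · rw [if_neg hpq, zero_add]
      have h3 := periodic_sum' (fun c => (jacobiSym (QD U V W (c : ℤ)) p : ℝ) * (jacobiSym (QD U V W (c : ℤ)) q : ℝ)) (p * q)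
        (Nat.mul_pos hpp.pos hqp.pos) ?_ ?_ ((sg U p : ℝ) * (sg U q : ℝ)) ?_ ?_ H
      · push_cast at h3
        rw [div_le_iff₀ (by positivity)]
        refine h3.trans (le_of_eq ?_)
        field_simp
      · intro x
        rw [abs_mul]
        exact mul_le_one₀ (js_abs _ _) (abs_nonneg _) (js_abs _ _)
      · intro x
        have e1 : QD U V W ((x + p * q : ℕ) : ℤ) = QD U V W (x : ℤ) + p * (q * (U * (2 * x + p * q) + V)) := by
          unfold QD; push_cast; ring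
        have e2 : QD U V W ((x + p * q : ℕ) : ℤ) = QD U V W (x : ℤ) + q * (p * (U * (2 * x + p * q) + V)) := by
          unfold QD; push_cast; ring
        have e3 : jacobiSym (QD U V W ((x + p * q : ℕ) : ℤ)) p = jacobiSym (QD U V W (x : ℤ)) p := by rw [e1, js_per]
        have e4 : jacobiSym (QD U V W ((x + p * q : ℕ) : ℤ)) q = jacobiSym (QD U V W (x : ℤ)) q := by rw [e2, js_per]
        simp only [e3, e4]
      · have h4 := comp_pair p q hpp hqp hp2 hq2 hpq U V W hpβ hqβ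
        exact_mod_cast h4
      · rw [abs_mul]
        exact mul_le_one₀ (sg_abs _ _) (abs_nonneg _) (sg_abs _ _)
  calc ∑ p ∈ P, ∑ q ∈ P, (c p * c q) * ((∑ k ∈ range H, (jacobiSym (QD U V W (k : ℤ)) p : ℝ) * (jacobiSym (QD U V W (k : ℤ)) q : ℝ)) / (p * q))
      ≤ ∑ p ∈ P, ∑ q ∈ P, ((if p = q then (H : ℝ) * (1 / (p : ℝ) ^ 2) else 0) +
          ((H : ℝ) * ((1 / (p : ℝ) ^ 2) * (1 / (q : ℝ) ^ 2)) + 1)) :=
        sum_le_sum fun p hp => sum_le_sum fun q hq => h2 p hp q hq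
    _ = (H : ℝ) * ∑ p ∈ P, 1 / (p : ℝ) ^ 2 + ((H : ℝ) * (∑ p ∈ P, 1 / (p : ℝ) ^ 2) ^ 2 + (#P : ℝ) ^ 2) := by
        simp_rw [sum_add_distrib]
        congr 1
        · rw [mul_sum]
          apply sum_congr rfl
          intro p hp
          rw [sum_ite_eq, if_pos hp]
        · congr 1
          · rw [sq (∑ p ∈ P, _), sum_mul_sum, mul_sum]
            apply sum_congr rfl
            intro p _
            rw [mul_sum]
          · simp [sq]
    _ ≤ 2 * (H / z) + (Z : ℝ) ^ 2 := by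
        have hsub : P ⊆ Ioc z Z := by
          intro p hp
          rw [mem_Ioc]
          exact ⟨(hP p hp).2.2.1, (hP p hp).2.2.2.1⟩
        have hcard : (#P : ℝ) ≤ Z := by
          have := card_le_card hsub
          rw [Nat.card_Ioc] at this
          exact_mod_cast this.trans (Nat.sub_le _ _)
        have hz1 : (1 : ℝ) ≤ z := by exact_mod_cast hz
        have h5 : ∑ p ∈ P, 1 / (p : ℝ) ^ 2 ≤ 1 / (z : ℝ) := by
          rcases P.eq_empty_or_nonempty with h | ⟨p, hp⟩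
          · rw [h, sum_empty]; positivity
          · have hzZ : z ≤ Z := by
              have := hP p hp
              omega
            calc ∑ p ∈ P, 1 / (p : ℝ) ^ 2 ≤ ∑ n ∈ Ioc z Z, 1 / (n : ℝ) ^ 2 :=
                  sum_le_sum_of_subset_of_nonneg hsub (fun _ _ _ => by positivity)
              _ ≤ 1 / (z : ℝ) - 1 / (Z : ℝ) := sum_inv_sq z Z hz hzZ
              _ ≤ 1 / (z : ℝ) := by
                  have : (0 : ℝ) ≤ 1 / (Z : ℝ) := by positivity
                  linarith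
        have h50 : 0 ≤ ∑ p ∈ P, 1 / (p : ℝ) ^ 2 := sum_nonneg fun _ _ => by positivity
        have h51 : 1 / (z : ℝ) ≤ 1 := by rw [div_le_one (by linarith)]; exact hz1
        have h6 : (H : ℝ) * ∑ p ∈ P, 1 / (p : ℝ) ^ 2 ≤ H * (1 / (z : ℝ)) := mul_le_mul_of_nonneg_left h5 (by positivity)
        have h8 : (∑ p ∈ P, 1 / (p : ℝ) ^ 2) ^ 2 ≤ 1 / (z : ℝ) := by
          calc (∑ p ∈ P, 1 / (p : ℝ) ^ 2) ^ 2 = (∑ p ∈ P, 1 / (p : ℝ) ^ 2) * (∑ p ∈ P, 1 / (p : ℝ) ^ 2) := sq _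
            _ ≤ (1 / (z : ℝ)) * 1 := mul_le_mul h5 (h5.trans h51) h50 (by positivity)
            _ = 1 / (z : ℝ) := mul_one _
        have h9 : (H : ℝ) * (∑ p ∈ P, 1 / (p : ℝ) ^ 2) ^ 2 ≤ H * (1 / (z : ℝ)) := mul_le_mul_of_nonneg_left h8 (by positivity)
        have h7 : (#P : ℝ) ^ 2 ≤ (Z : ℝ) ^ 2 := pow_le_pow_left₀ (by positivity) hcard 2
        rw [mul_one_div] at h6 h9
        linarith

end Pool.Agent.Helper30K9.PT
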