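import Pool.Agent.Helper24K9.PT.Stm
import Pool.Agent.Helper30K9.PT.Tw0

set_option autoImplicit false

/-! [TW] of `Helper24K9.PT.Stm`. -/

namespace Pool.Agent.Helper30K9.PT

theorem tw : Pool.Agent.Helper24K9.PT.S_TW :=
  fun U V W P z Z H hz hP c hc => second_momentT U V W P z Z H hz hP c hc

end Pool.Agent.Helper30K9.PT
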